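import Pool.Agent.BhU16.Cert

/-!
# Asymptotic form
-/

namespace Pool.Agent.BhU16

open Finset Filter Topology

theorem exists_R (h n : ℕ) : ∃ A : Finset ℕ, A ⊆ Icc 1 n ∧ (IsBh h A ∨ A = ∅) ∧
    A.card = R h n := by
  classical
  by_cases hne : ((Icc 1 n).powerset.filter (IsBh h)).Nonempty
  · obtain ⟨A, hA, hAc⟩ := Finset.exists_mem_eq_sup _ hne card
    rw [mem_filter, mem_powerset] at hA
    refine ⟨A, hA.1, Or.inl hA.2, ?_⟩
    rw [R]
    convert hAc.symm
  · refine ⟨∅, empty_subset _, Or.inr rfl, ?_⟩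
    rw [not_nonempty_iff_eq_empty] at hne
    rw [R]
    have : ((Icc 1 n).powerset.filter (IsBh h)).sup card = 0 := by rw [hne]; rfl
    rw [card_empty]
    convert this.symm

theorem choose_alpha {C M g : ℝ} (hg : 0 ≤ g) (J : ℕ) {ε : ℝ} (hε : 0 < ε) :
    ∃ α : ℝ, 0 < α ∧ α < 1 ∧ 0 < 1 + (1 - (2 * Real.pi * J * α) ^ 2) * g - α ∧
      C * (M + α) / (1 + (1 - (2 * Real.pi * J * α) ^ 2) * g - α) < C * M / (1 + g) + ε := by
  have hden : Tendsto (fun α : ℝ => 1 + (1 - (2 * Real.pi * J * α) ^ 2) * g - α) (𝓝 0)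
      (𝓝 (1 + g)) := by
    have : ContinuousAt (fun α : ℝ => 1 + (1 - (2 * Real.pi * J * α) ^ 2) * g - α) 0 := by
      fun_prop
    have h := this.tendsto
    simpa using h
  have hnum : Tendsto (fun α : ℝ => C * (M + α)) (𝓝 0) (𝓝 (C * M)) := by
    have : ContinuousAt (fun α : ℝ => C * (M + α)) 0 := by fun_prop
    have h := this.tendsto
    simpa using h
  have hdiv := hnum.div hden (by linarith)
  have e1 : ∀ᶠ α in 𝓝 (0 : ℝ), C * (M + α) / (1 + (1 - (2 * Real.pi * J * α) ^ 2) * g - α) <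
      C * M / (1 + g) + ε := hdiv.eventually_lt_const (by linarith)
  have e2 : ∀ᶠ α in 𝓝 (0 : ℝ), 0 < 1 + (1 - (2 * Real.pi * J * α) ^ 2) * g - α :=
    hden.eventually_const_lt (by linarith)
  have e3 : ∀ᶠ α in 𝓝 (0 : ℝ), α < 1 := eventually_lt_nhds one_pos
  have e4 : ∀ᶠ α in 𝓝[>] (0 : ℝ), 0 < α := eventually_mem_nhdsWithin
  obtain ⟨α, h1, h2, h3, h4⟩ := (e4.and ((e3.and (e2.and e1)).filter_mono nhdsWithin_le_nhds)).exists
  exact ⟨α, h1, h2, h3, h4⟩

theorem asym {m J : ℕ} {q : ℕ → ℝ} {τ : ℝ} (hq : Cert m J q τ) (hg : 0 ≤ gain m J q τ)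
    {h e : ℕ} (he : h + e = 2 * m + 2) (hh : 1 ≤ h) {C : ℝ} (hC : 0 < C)
    (hQ : ∀ (u : ℕ) (A : Finset ℕ), IsBh h A → ((Q m u A).card : ℝ) ≤
      C * (A.card : ℝ) ^ e * u ^ 2 + ((m : ℝ) + 1) ^ 2 * (A.card : ℝ) ^ (2 * m + 1) * u)
    {ε : ℝ} (hε : 0 < ε) :
    ∀ᶠ n : ℕ in atTop, (R h n : ℝ) ^ h ≤ (C * (m + 1) / (1 + gain m J q τ) + ε) * n := by
  set g := gain m J q τ with hgdef
  obtain ⟨α, hα0, hα1, hD, hφ⟩ := choose_alpha (C := C) (M := (m : ℝ) + 1) hg J hε
  set M : ℝ := (m : ℝ) + 1 with hM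
  have hM1 : 1 ≤ M := by rw [hM]; have : (0 : ℝ) ≤ m := Nat.cast_nonneg m; linarith
  set D : ℝ := 1 + (1 - (2 * Real.pi * J * α) ^ 2) * g - α with hDdef
  set B : ℝ := 2 * (M + 1) / α with hB
  have hB0 : 0 < B := by positivity
  set K : ℝ := M ^ 2 * B / α with hK
  have hK0 : 0 < K := by positivity
  have hL0 : 0 ≤ C * M / (1 + g) := by positivity
  clear_value D B K
  have e1 : ∀ᶠ n : ℕ in atTop, 2 / α ≤ (n : ℝ) := tendsto_natCast_atTop_atTop.eventually_ge_atTop _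
  have e2 : ∀ᶠ n : ℕ in atTop, K ^ h / ε ≤ (n : ℝ) := tendsto_natCast_atTop_atTop.eventually_ge_atTop _
  have e3 : ∀ᶠ n : ℕ in atTop, 2 * J + 1 ≤ n := eventually_ge_atTop _
  filter_upwards [e1, e2, e3] with n h1 h2 h3
  obtain ⟨A, hA, hAB, hAc⟩ := exists_R h n
  rw [← hAc]
  have hn0 : (0 : ℝ) < n := by
    have : 0 < n := by omega
    exact_mod_cast this
  by_cases hk : (A.card : ℝ) ≤ K
  · calc (A.card : ℝ) ^ h ≤ K ^ h := pow_le_pow_left₀ (Nat.cast_nonneg _) hk h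
      _ ≤ ε * n := by rw [div_le_iff₀ hε] at h2; linarith
      _ ≤ _ := by nlinarith
  · rw [not_le] at hk
    have hk0 : (0 : ℝ) < A.card := hK0.trans hk
    have hAne : A.Nonempty := by
      rw [← card_pos]; exact_mod_cast hk0
    have hAB' : IsBh h A := by
      rcases hAB with h | h
      · exact h
      · rw [h] at hAne; exact absurd hAne not_nonempty_empty
    set k : ℝ := (A.card : ℝ) with hkdef
    set u : ℕ := ⌊α * n⌋₊ with hu
    have hαn : 2 ≤ α * n := by rw [div_le_iff₀ hα0] at h1; linarith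
    have hu1 : (u : ℝ) ≤ α * n := Nat.floor_le (by positivity)
    have hu2 : α * n / 2 ≤ u := by
      have := Nat.lt_floor_add_one (α * n)
      rw [← hu] at this
      linarith
    have hu0 : (0 : ℝ) < u := by linarith
    have hu0' : 0 < u := by exact_mod_cast hu0
    have hJ : 2 * J < (m + 1) * n + u := by nlinarith
    have hfin := finite_ineq hq hg hA hAne hu0' hJ
    rw [← hgdef, ← hkdef] at hfin
    set N : ℕ := (m + 1) * n + u with hN
    clear_value N k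
    have hNc : (N : ℝ) = M * n + u := by
      rw [hN, hM]; push_cast; ring
    have hN1 : (N : ℝ) ≤ (M + α) * n := by
      rw [hNc, add_mul]; linarith
    have hN2 : (n : ℝ) ≤ N := by
      have : 1 * (n : ℝ) ≤ M * n := by gcongr
      rw [hNc]; linarith
    have hN0 : (0 : ℝ) < N := by linarith
    have hδ : (2 * Real.pi * J * u / N) ^ 2 ≤ (2 * Real.pi * J * α) ^ 2 := by
      have hpi := Real.pi_pos
      have : 2 * Real.pi * J * u / N ≤ 2 * Real.pi * J * α := by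
        rw [div_le_iff₀ hN0]
        have h5 : (u : ℝ) ≤ α * N := hu1.trans (by gcongr)
        calc 2 * Real.pi * J * u ≤ 2 * Real.pi * J * (α * N) := by gcongr
          _ = _ := by ring
      exact pow_le_pow_left₀ (by positivity) this 2
    have h4 := hQ u A hAB'
    rw [← hkdef] at h4
    have h5 : k ^ (2 * m + 2) * (u : ℝ) ^ 2 * (1 + (1 - (2 * Real.pi * J * α) ^ 2) * g) ≤
        N * (C * k ^ e * u ^ 2 + M ^ 2 * k ^ (2 * m + 1) * u) := by
      calc _ ≤ k ^ (2 * m + 2) * (u : ℝ) ^ 2 * (1 + (1 - (2 * Real.pi * J * u / N) ^ 2) * g) := by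
            gcongr
        _ ≤ (N : ℝ) * ((Q m u A).card : ℝ) := hfin
        _ ≤ _ := by gcongr
    have hp1 : k ^ (2 * m + 2) = k ^ h * k ^ e := by rw [← pow_add, he]
    have hp2 : k ^ (2 * m + 1) = k ^ (h - 1) * k ^ e := by
      rw [← pow_add]; congr 1; omega
    rw [hp1, hp2] at h5
    have h6 : k ^ h * (1 + (1 - (2 * Real.pi * J * α) ^ 2) * g) ≤
        N * C + M ^ 2 * k ^ (h - 1) * (N / u) := by
      have h7 : (0 : ℝ) < k ^ e * u ^ 2 := by positivity
      refine le_of_mul_le_mul_right ?_ h7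
      calc _ = k ^ h * k ^ e * (u : ℝ) ^ 2 * (1 + (1 - (2 * Real.pi * J * α) ^ 2) * g) := by ring
        _ ≤ _ := h5
        _ = _ := by field_simp
    have h7 : (N : ℝ) / u ≤ B := by
      rw [div_le_iff₀ hu0, hB]
      calc (N : ℝ) ≤ (M + α) * n := hN1
        _ ≤ (M + 1) * n := by gcongr
        _ = 2 * (M + 1) / α * (α * n / 2) := by field_simp
        _ ≤ _ := by gcongr
    have h8 : M ^ 2 * k ^ (h - 1) * (N / u) ≤ α * k ^ h := by
      have h9 : M ^ 2 * B ≤ α * k := by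
        have : K ≤ k := hk.le
        rw [hK, div_le_iff₀ hα0] at this
        linarith
      have h10 : k ^ h = k ^ (h - 1) * k := by rw [← pow_succ]; congr 1; omega
      calc M ^ 2 * k ^ (h - 1) * (N / u) ≤ M ^ 2 * k ^ (h - 1) * B := by gcongr
        _ = k ^ (h - 1) * (M ^ 2 * B) := by ring
        _ ≤ k ^ (h - 1) * (α * k) := by gcongr
        _ = _ := by rw [h10]; ring
    have h9 : k ^ h * D ≤ C * (M + α) * n := by
      have : (N : ℝ) * C ≤ C * (M + α) * n := by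
        calc (N : ℝ) * C ≤ (M + α) * n * C := by gcongr
          _ = _ := by ring
      have h10 : k ^ h * D = k ^ h * (1 + (1 - (2 * Real.pi * J * α) ^ 2) * g) - α * k ^ h := by
        rw [hDdef]; ring
      rw [h10]
      linarith
    calc k ^ h ≤ C * (M + α) * n / D := by rw [le_div_iff₀ hD]; exact h9
      _ = C * (M + α) / D * n := by ring
      _ ≤ _ := by gcongr

/-- Even case. -/
theorem upper_even {m J : ℕ} {q : ℕ → ℝ} {τ : ℝ} (hq : Cert m J q τ) (hg : 0 ≤ gain m J q τ)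
    {ε : ℝ} (hε : 0 < ε) :
    ∀ᶠ n : ℕ in atTop, (R (2 * m + 2) n : ℝ) ^ (2 * m + 2) ≤
      (((m + 1).factorial : ℝ) ^ 2 * (m + 1) / (1 + gain m J q τ) + ε) * n := by
  refine asym hq hg (e := 0) (by omega) (by omega) (by positivity) ?_ hε
  intro u A hA
  have h := card_Q_even (u := u) hA
  have h' : ((Q m u A).card : ℝ) ≤ (((m + 1).factorial ^ 2 * u ^ 2 +
      ((m + 1) ^ 2 * A.card ^ (2 * m + 1)) * u : ℕ) : ℝ) := by exact_mod_cast h
  push_cast at h'
  simpa using h'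

/-- Odd case. -/
theorem upper_odd {m J : ℕ} {q : ℕ → ℝ} {τ : ℝ} (hq : Cert m J q τ) (hg : 0 ≤ gain m J q τ)
    {ε : ℝ} (hε : 0 < ε) :
    ∀ᶠ n : ℕ in atTop, (R (2 * m + 1) n : ℝ) ^ (2 * m + 1) ≤
      (((m + 1).factorial : ℝ) ^ 2 / (1 + gain m J q τ) + ε) * n := by
  have h0 : (((m + 1).factorial : ℝ) ^ 2) =
      ((m + 1).factorial : ℝ) * m.factorial * (m + 1) := by
    rw [sq, mul_assoc]
    congr 1
    rw [Nat.factorial_succ]
    push_cast
    ring
  rw [h0]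
  refine asym hq hg (e := 1) (by omega) (by omega) (by positivity) ?_ hε
  intro u A hA
  have h := card_Q_odd (u := u) hA
  have h' : ((Q m u A).card : ℝ) ≤ ((((m + 1).factorial * m.factorial * A.card) * u ^ 2 +
      ((m + 1) ^ 2 * A.card ^ (2 * m + 1)) * u : ℕ) : ℝ) := by exact_mod_cast h
  push_cast at h'
  simpa using h'

end Pool.Agent.BhU16
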