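import Mathlib

/-!
# `B_h`-sets in an interval: counting representations

`IsBh h A`: all sums of `h` elements of `A` (repetitions allowed) are distinct up to reordering.
-/

namespace Pool.Agent.BhU16

open Finset

/-- `A` is a `B_h`-set: two multisets of `h` elements of `A` with the same sum are equal. -/
def IsBh (h : ℕ) (A : Finset ℕ) : Prop :=
  ∀ s t : Multiset ℕ, s.card = h → t.card = h → (∀ x ∈ s, x ∈ A) → (∀ x ∈ t, x ∈ A) →
    s.sum = t.sum → s = t

open Classical in
/-- `R h n`: the largest size of a `B_h`-set contained in `{1, ..., n}`. -/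
noncomputable def R (h n : ℕ) : ℕ := ((Icc 1 n).powerset.filter (IsBh h)).sup card

/-- The multiset of values of a tuple. -/
def ms {m : ℕ} (a : Fin m → ℕ) : Multiset ℕ := ↑(List.ofFn a)

theorem ms_card {m : ℕ} (a : Fin m → ℕ) : (ms a).card = m := by
  simp [ms]

theorem ms_sum {m : ℕ} (a : Fin m → ℕ) : (ms a).sum = ∑ i, a i := by
  simp [ms, List.sum_ofFn]

theorem mem_ms {m : ℕ} {a : Fin m → ℕ} {x : ℕ} : x ∈ ms a ↔ ∃ i, a i = x := by
  simp [ms, List.mem_ofFn]

/-- The tuples of length `m` with entries in `A`. -/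
def tup (m : ℕ) (A : Finset ℕ) : Finset (Fin m → ℕ) := Fintype.piFinset fun _ => A

theorem mem_tup {m : ℕ} {A : Finset ℕ} {a : Fin m → ℕ} : a ∈ tup m A ↔ ∀ i, a i ∈ A := by
  simp [tup]

theorem card_tup (m : ℕ) (A : Finset ℕ) : (tup m A).card = A.card ^ m := by
  simp [tup]

theorem card_ms_eq {m : ℕ} (S : Finset (Fin m → ℕ)) (a0 : Fin m → ℕ) :
    (S.filter fun a => ms a = ms a0).card ≤ m.factorial := by
  classical
  have h1 : (S.filter fun a => ms a = ms a0).card ≤
      ((List.ofFn a0).permutations.toFinset).card := by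
    refine card_le_card_of_injOn (fun a => List.ofFn a) ?_ ?_
    · intro a ha
      simp only [coe_filter, Set.mem_setOf_eq] at ha
      simp only [List.coe_toFinset, Set.mem_setOf_eq, List.mem_permutations]
      exact Multiset.coe_eq_coe.1 ha.2
    · intro a _ b _ hab
      exact List.ofFn_injective hab
  refine h1.trans ((List.toFinset_card_le _).trans ?_)
  rw [List.length_permutations, List.length_ofFn]

/-- If `a`, `b` have no common value, a representation `Σ a + s = Σ b + t` determines the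
multisets of `a` and `b`. -/
theorem ms_unique {h l m : ℕ} (hlm : l + m = h) {A : Finset ℕ} (hA : IsBh h A) {s t : ℕ}
    {a a' : Fin l → ℕ} {b b' : Fin m → ℕ} (ha : a ∈ tup l A) (ha' : a' ∈ tup l A)
    (hb : b ∈ tup m A) (hb' : b' ∈ tup m A) (hd : ∀ i j, a i ≠ b j) 
    (h1 : ∑ i, a i + s = ∑ i, b i + t) (h2 : ∑ i, a' i + s = ∑ i, b' i + t) :
    ms a = ms a' ∧ ms b = ms b' := by
  classical
  have hs : (ms a + ms b').sum = (ms a' + ms b).sum := by
    rw [Multiset.sum_add, Multiset.sum_add, ms_sum, ms_sum, ms_sum, ms_sum]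
    omega
  have he : ms a + ms b' = ms a' + ms b := by
    refine hA _ _ ?_ ?_ ?_ ?_ hs
    · rw [Multiset.card_add, ms_card, ms_card, hlm]
    · rw [Multiset.card_add, ms_card, ms_card, hlm]
    · intro x hx
      rcases Multiset.mem_add.1 hx with hx | hx
      · obtain ⟨i, rfl⟩ := mem_ms.1 hx
        exact mem_tup.1 ha i
      · obtain ⟨i, rfl⟩ := mem_ms.1 hx
        exact mem_tup.1 hb' i
    · intro x hx
      rcases Multiset.mem_add.1 hx with hx | hx
      · obtain ⟨i, rfl⟩ := mem_ms.1 hx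
        exact mem_tup.1 ha' i
      · obtain ⟨i, rfl⟩ := mem_ms.1 hx
        exact mem_tup.1 hb i
  have hdis : Disjoint (ms a) (ms b) := by
    rw [Multiset.disjoint_left]
    intro x hx hx'
    obtain ⟨i, hi⟩ := mem_ms.1 hx
    obtain ⟨j, hj⟩ := mem_ms.1 hx'
    exact hd i j (hi.trans hj.symm)
  have hle : ms a ≤ ms a' := by
    have h3 : ms a ≤ ms a' + ms b := he ▸ Multiset.le_add_right _ _
    rw [Multiset.le_iff_count] at h3 ⊢
    intro x
    have h4 := h3 x
    rw [Multiset.count_add] at h4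
    by_cases hx : x ∈ ms a
    · have : (ms b).count x = 0 :=
        Multiset.count_eq_zero.2 (Multiset.disjoint_left.1 hdis hx)
      omega
    · rw [Multiset.count_eq_zero.2 hx]
      exact Nat.zero_le _
  have hea : ms a = ms a' := Multiset.eq_of_le_of_card_le hle (by rw [ms_card, ms_card])
  refine ⟨hea, ?_⟩
  rw [hea] at he
  exact (add_left_cancel he).symm

/-- The number of pairs of disjoint tuples with `Σ a + s = Σ b + t`. -/
theorem card_disjoint {h l m : ℕ} (hlm : l + m = h) {A : Finset ℕ} (hA : IsBh h A) (s t : ℕ) :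
    ((tup l A ×ˢ tup m A).filter fun p => (∀ i j, p.1 i ≠ p.2 j) ∧
      ∑ i, p.1 i + s = ∑ i, p.2 i + t).card ≤ l.factorial * m.factorial := by
  classical
  rcases Finset.eq_empty_or_nonempty ((tup l A ×ˢ tup m A).filter fun p =>
      (∀ i j, p.1 i ≠ p.2 j) ∧ ∑ i, p.1 i + s = ∑ i, p.2 i + t) with he | ⟨p0, hp0⟩
  · rw [he]; simp
  · rw [mem_filter, mem_product] at hp0
    have hsub : ((tup l A ×ˢ tup m A).filter fun p => (∀ i j, p.1 i ≠ p.2 j) ∧
        ∑ i, p.1 i + s = ∑ i, p.2 i + t) ⊆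
        ((tup l A).filter fun a => ms a = ms p0.1) ×ˢ ((tup m A).filter fun b => ms b = ms p0.2) := by
      intro p hp
      rw [mem_filter, mem_product] at hp
      obtain ⟨h1, h2⟩ := ms_unique hlm hA hp0.1.1 hp.1.1 hp0.1.2 hp.1.2 hp0.2.1 hp0.2.2 hp.2.2
      rw [mem_product, mem_filter, mem_filter]
      exact ⟨⟨hp.1.1, h1.symm⟩, ⟨hp.1.2, h2.symm⟩⟩
    refine (card_le_card hsub).trans ?_
    rw [card_product]
    exact Nat.mul_le_mul (card_ms_eq _ _) (card_ms_eq _ _)

/-- The number of pairs of tuples with a common value. -/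
theorem card_common (l m : ℕ) (A : Finset ℕ) :
    ((tup (l + 1) A ×ˢ tup (m + 1) A).filter fun p => ¬ ∀ i j, p.1 i ≠ p.2 j).card ≤
      (l + 1) * (m + 1) * A.card ^ (l + m + 1) := by
  classical
  have hsub : ((tup (l + 1) A ×ˢ tup (m + 1) A).filter fun p => ¬ ∀ i j, p.1 i ≠ p.2 j) ⊆
      (univ : Finset (Fin (l + 1) × Fin (m + 1))).biUnion fun ij =>
        (tup (l + 1) A ×ˢ tup (m + 1) A).filter fun p => p.1 ij.1 = p.2 ij.2 := by
    intro p hp
    rw [mem_filter] at hp
    obtain ⟨hp, h⟩ := hp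
    push Not at h
    obtain ⟨i, j, hij⟩ := h
    rw [mem_biUnion]
    exact ⟨(i, j), mem_univ _, mem_filter.2 ⟨hp, hij⟩⟩
  refine (card_le_card hsub).trans (card_biUnion_le.trans ?_)
  have h1 : ∀ ij : Fin (l + 1) × Fin (m + 1),
      ((tup (l + 1) A ×ˢ tup (m + 1) A).filter fun p => p.1 ij.1 = p.2 ij.2).card ≤
        A.card ^ (l + m + 1) := by
    rintro ⟨i, j⟩
    have h2 : ((tup (l + 1) A ×ˢ tup (m + 1) A).filter fun p => p.1 i = p.2 j).card ≤
        (tup (l + 1) A ×ˢ tup m A).card := by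
      refine card_le_card_of_injOn (fun p => (p.1, fun k => p.2 (j.succAbove k))) ?_ ?_
      · intro p hp
        simp only [coe_filter, Set.mem_setOf_eq, mem_product] at hp
        simp only [coe_product, Set.mem_prod, mem_coe]
        exact ⟨hp.1.1, mem_tup.2 fun k => mem_tup.1 hp.1.2 _⟩
      · intro p hp q hq hpq
        simp only [coe_filter, Set.mem_setOf_eq, mem_product] at hp hq
        simp only [Prod.mk.injEq] at hpq
        obtain ⟨h3, h4⟩ := hpq
        refine Prod.ext h3 (funext fun k => ?_)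
        rcases Fin.eq_self_or_eq_succAbove j k with rfl | ⟨k', rfl⟩
        · rw [← hp.2, ← hq.2, h3]
        · exact congrFun h4 k'
    refine h2.trans (le_of_eq ?_)
    rw [card_product, card_tup, card_tup, ← pow_add]
    congr 1
    omega
  calc ∑ ij : Fin (l + 1) × Fin (m + 1),
        ((tup (l + 1) A ×ˢ tup (m + 1) A).filter fun p => p.1 ij.1 = p.2 ij.2).card
      ≤ ∑ _ij : Fin (l + 1) × Fin (m + 1), A.card ^ (l + m + 1) := sum_le_sum fun ij _ => h1 ij
    _ = (l + 1) * (m + 1) * A.card ^ (l + m + 1) := by simp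

end Pool.Agent.BhU16
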