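import Pool.Agent.BhU16.Fourier

/-!
# The certificate inequality
-/

namespace Pool.Agent.BhU16

open Finset Complex

theorem ze_pow (N k : ℕ) : ze N ^ k = exp (((2 * Real.pi * k / N : ℝ) : ℂ) * I) := by
  rw [ze, ← Complex.exp_nat_mul]
  congr 1
  push_cast
  ring

theorem re_exp (x : ℝ) : (exp ((x : ℂ) * I)).re = Real.cos x := exp_ofReal_mul_I_re x

theorem norm_D_ge (N u j : ℕ) :
    (u : ℝ) * (1 - (2 * Real.pi * j * u / N) ^ 2 / 2) ≤ ‖S (range u) N j‖ := by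
  refine le_trans ?_ (Complex.re_le_norm _)
  rw [S, re_sum]
  have h1 : ∀ s ∈ range u, 1 - (2 * Real.pi * j * u / N) ^ 2 / 2 ≤ (ze N ^ (j * s)).re := by
    intro s hs
    rw [mem_range] at hs
    rw [ze_pow, re_exp]
    refine le_trans ?_ (Real.one_sub_sq_div_two_le_cos)
    have h2 : (2 * Real.pi * ((j * s : ℕ) : ℝ) / N) ^ 2 ≤ (2 * Real.pi * j * u / N) ^ 2 := by
      have h3 : (s : ℝ) ≤ u := by exact_mod_cast hs.le
      have := Real.pi_pos
      push_cast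
      gcongr 2
      rw [mul_assoc (2 * Real.pi)]
      gcongr
    linarith
  calc (u : ℝ) * (1 - (2 * Real.pi * j * u / N) ^ 2 / 2)
      = ∑ _s ∈ range u, (1 - (2 * Real.pi * j * u / N) ^ 2 / 2) := by
        rw [sum_const, card_range, nsmul_eq_mul]
    _ ≤ _ := sum_le_sum h1

theorem normSq_D_ge {N u j J : ℕ} (hj : j ≤ J) :
    (u : ℝ) ^ 2 * (1 - (2 * Real.pi * J * u / N) ^ 2) ≤ ‖S (range u) N j‖ ^ 2 := by
  set t : ℝ := 2 * Real.pi * J * u / N with ht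
  have h0 : (2 * Real.pi * j * u / N) ^ 2 ≤ t ^ 2 := by
    have h3 : (j : ℝ) ≤ J := by exact_mod_cast hj
    have := Real.pi_pos
    rw [ht]
    gcongr
  have h1 := norm_D_ge N u j
  by_cases ht1 : t ^ 2 ≤ 1
  · have h2 : (u : ℝ) * (1 - t ^ 2 / 2) ≤ ‖S (range u) N j‖ := by
      refine le_trans ?_ h1
      gcongr
    have h3 : 0 ≤ (u : ℝ) * (1 - t ^ 2 / 2) := mul_nonneg (Nat.cast_nonneg _) (by linarith)
    have h4 := pow_le_pow_left₀ h3 h2 2
    refine le_trans ?_ h4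
    rw [mul_pow]
    gcongr
    nlinarith [sq_nonneg (t ^ 2)]
  · have h2 : (u : ℝ) ^ 2 * (1 - t ^ 2) ≤ 0 :=
      mul_nonpos_of_nonneg_of_nonpos (sq_nonneg _) (by linarith)
    exact h2.trans (sq_nonneg _)

/-- The tangent line inequality for even powers. -/
theorem tangent (M : ℕ) (y q : ℝ) :
    2 * (M + 1 : ℝ) * q ^ (2 * M + 1) * y - (2 * M + 1) * q ^ (2 * M + 2) ≤ y ^ (2 * M + 2) := by
  by_cases hq : q = 0
  · subst hq
    simp only [ne_eq, Nat.add_eq_zero_iff, mul_eq_zero, OfNat.ofNat_ne_zero, false_or, one_ne_zero,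
      and_false, not_false_eq_true, zero_pow, mul_zero, zero_mul, sub_zero]
    exact Even.pow_nonneg ⟨M + 1, by ring⟩ y
  · set t : ℝ := y / q with ht
    have hy : y = t * q := by rw [ht, div_mul_cancel₀ _ hq]
    have h1 : 1 + (2 * M + 2 : ℝ) * (t - 1) ≤ t ^ (2 * M + 2) := by
      by_cases h : -1 ≤ t
      · have := one_add_mul_le_pow (a := t - 1) (by linarith) (2 * M + 2)
        push_cast at this
        simpa using this
      · have h2 : (0 : ℝ) ≤ t ^ (2 * M + 2) := Even.pow_nonneg ⟨M + 1, by ring⟩ t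
        have h3 : (0 : ℝ) ≤ M := Nat.cast_nonneg M
        nlinarith
    have h2 : (0 : ℝ) ≤ q ^ (2 * M + 2) := Even.pow_nonneg ⟨M + 1, by ring⟩ q
    have h3 := mul_le_mul_of_nonneg_right h1 h2
    rw [hy, mul_pow]
    refine le_trans (le_of_eq ?_) h3
    ring

/-- `q` is a certificate for `(m + 1, J)` with value `τ`. -/
def Cert (m J : ℕ) (q : ℕ → ℝ) (τ : ℝ) : Prop :=
  ∀ θ : ℝ, |θ| ≤ Real.pi / (m + 1) →
    τ ≤ ∑ j ∈ Icc 1 J, 4 * (m + 1 : ℝ) * q j ^ (2 * m + 1) * Real.cos (j * θ)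

/-- The gain of a certificate. -/
noncomputable def gain (m J : ℕ) (q : ℕ → ℝ) (τ : ℝ) : ℝ :=
  τ - 2 * (2 * m + 1) * ∑ j ∈ Icc 1 J, q j ^ (2 * m + 2)

theorem cert_ineq {m J n N : ℕ} {q : ℕ → ℝ} {τ : ℝ} (hq : Cert m J q τ) {A : Finset ℕ}
    (hA : A ⊆ Icc 1 n) (hA0 : A.Nonempty) (hN : (m + 1) * n ≤ N) :
    gain m J q τ * (A.card : ℝ) ^ (2 * m + 2) ≤
      ∑ j ∈ Icc 1 J, 2 * ‖S A N j‖ ^ (2 * m + 2) := by
  classical
  have hk : (0 : ℝ) < A.card := by exact_mod_cast card_pos.2 hA0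
  obtain ⟨a0, ha0⟩ := hA0
  have hn : 1 ≤ n := by have := mem_Icc.1 (hA ha0); omega
  have hNpos : (0 : ℝ) < N := by
    have : 0 < N := lt_of_lt_of_le (by positivity) hN
    exact_mod_cast this
  set k : ℝ := (A.card : ℝ) with hkdef
  set th : ℕ → ℝ := fun a => 2 * Real.pi * (a - (n + 1) / 2) / N with hth
  set y : ℕ → ℝ := fun j => (∑ a ∈ A, Real.cos (j * th a)) / k with hy
  have h1 : ∀ j, |y j| ≤ ‖S A N j‖ / k := by
    intro j
    rw [hy]
    simp only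
    rw [abs_div, abs_of_pos hk]
    gcongr
    have h2 : ∑ a ∈ A, Real.cos (j * th a) =
        (exp (((-(2 * Real.pi * j * ((n + 1) / 2) / N) : ℝ) : ℂ) * I) * S A N j).re := by
      rw [S, mul_sum, re_sum]
      refine sum_congr rfl fun a _ => ?_
      rw [ze_pow, ← exp_add, ← add_mul, ← ofReal_add, re_exp]
      congr 1
      rw [hth]
      push_cast
      ring
    rw [h2]
    refine (Complex.abs_re_le_norm _).trans ?_
    rw [norm_mul, norm_exp_ofReal_mul_I, one_mul]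
  have h2 : ∀ a ∈ A, |th a| ≤ Real.pi / (m + 1) := by
    intro a ha
    have h3 := mem_Icc.1 (hA ha)
    have h4 : |(a : ℝ) - (n + 1) / 2| ≤ n / 2 := by
      have h5 : (1 : ℝ) ≤ a := by exact_mod_cast h3.1
      have h6 : (a : ℝ) ≤ n := by exact_mod_cast h3.2
      rw [abs_le]
      constructor <;> linarith
    rw [hth]
    simp only
    rw [abs_div, abs_mul, abs_of_pos Real.two_pi_pos, abs_of_pos hNpos, div_le_div_iff₀ hNpos (by positivity)]
    have h7 : ((m : ℝ) + 1) * n ≤ N := by exact_mod_cast hN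
    have h8 : 2 * Real.pi * |(a : ℝ) - (n + 1) / 2| * (m + 1) ≤ 2 * Real.pi * (n / 2) * (m + 1) := by
      have := Real.pi_pos
      gcongr
    nlinarith [Real.pi_pos]
  have h3 : τ ≤ ∑ j ∈ Icc 1 J, 4 * (m + 1 : ℝ) * q j ^ (2 * m + 1) * y j := by
    have h4 : ∑ j ∈ Icc 1 J, 4 * (m + 1 : ℝ) * q j ^ (2 * m + 1) * y j =
        (∑ a ∈ A, ∑ j ∈ Icc 1 J, 4 * (m + 1 : ℝ) * q j ^ (2 * m + 1) * Real.cos (j * th a)) / k := by
      rw [sum_comm, sum_div]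
      refine sum_congr rfl fun j _ => ?_
      rw [hy]
      simp only
      rw [← mul_sum, mul_div_assoc]
    rw [h4, le_div_iff₀ hk]
    calc τ * k = ∑ _a ∈ A, τ := by rw [sum_const, nsmul_eq_mul, mul_comm]
      _ ≤ _ := sum_le_sum fun a ha => hq _ (h2 a ha)
  have h4 : gain m J q τ ≤ ∑ j ∈ Icc 1 J, 2 * (‖S A N j‖ / k) ^ (2 * m + 2) := by
    have h5 : ∀ j ∈ Icc 1 J, 4 * (m + 1 : ℝ) * q j ^ (2 * m + 1) * y j -
        2 * (2 * m + 1) * q j ^ (2 * m + 2) ≤ 2 * (‖S A N j‖ / k) ^ (2 * m + 2) := by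
      intro j _
      have h6 := tangent m (y j) (q j)
      have h7 : y j ^ (2 * m + 2) ≤ (‖S A N j‖ / k) ^ (2 * m + 2) := by
        have h8 : y j ^ (2 * m + 2) = |y j| ^ (2 * m + 2) :=
          (Even.pow_abs ⟨m + 1, by ring⟩ _).symm
        rw [h8]
        exact pow_le_pow_left₀ (abs_nonneg _) (h1 j) _
      linarith
    have h6 := sum_le_sum h5
    rw [sum_sub_distrib, ← mul_sum] at h6
    rw [gain]
    linarith
  have h5 : gain m J q τ * k ^ (2 * m + 2) ≤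
      (∑ j ∈ Icc 1 J, 2 * (‖S A N j‖ / k) ^ (2 * m + 2)) * k ^ (2 * m + 2) := by
    gcongr
  refine h5.trans (le_of_eq ?_)
  rw [sum_mul]
  refine sum_congr rfl fun j _ => ?_
  rw [div_pow]
  field_simp

/-- The finite inequality. -/
theorem finite_ineq {m J n u : ℕ} {q : ℕ → ℝ} {τ : ℝ} (hq : Cert m J q τ)
    (hg : 0 ≤ gain m J q τ) {A : Finset ℕ} (hA : A ⊆ Icc 1 n) (hA0 : A.Nonempty) (hu : 0 < u)
    (hJ : 2 * J < (m + 1) * n + u) :
    (A.card : ℝ) ^ (2 * m + 2) * (u : ℝ) ^ 2 * (1 +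
      (1 - (2 * Real.pi * J * u / ((m + 1) * n + u : ℕ)) ^ 2) * gain m J q τ) ≤
      ((m + 1) * n + u : ℕ) * ((Q m u A).card : ℝ) := by
  classical
  set N := (m + 1) * n + u with hN
  have hN0 : 0 < N := by omega
  rw [← sum_S hA hu, ← hN]
  have h1 := sum_range_ge (N := N) (J := J) hJ
    (f := fun j => ‖S A N j‖ ^ (2 * m + 2) * ‖S (range u) N j‖ ^ 2)
    (fun j => by positivity) (fun j hj => by
      rw [norm_S_sub A hN0 hj, norm_S_sub (range u) hN0 hj])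
  refine le_trans ?_ h1
  have h0 : ‖S A N 0‖ ^ (2 * m + 2) * ‖S (range u) N 0‖ ^ 2 =
      (A.card : ℝ) ^ (2 * m + 2) * (u : ℝ) ^ 2 := by
    simp [S]
  rw [h0]
  set δ : ℝ := (2 * Real.pi * J * u / N) ^ 2 with hδ
  have h2 : ∑ j ∈ Icc 1 J, 2 * (‖S A N j‖ ^ (2 * m + 2) * ‖S (range u) N j‖ ^ 2) ≥
      ∑ j ∈ Icc 1 J, 2 * ‖S A N j‖ ^ (2 * m + 2) * ((u : ℝ) ^ 2 * (1 - δ)) := by
    refine sum_le_sum fun j hj => ?_
    rw [mem_Icc] at hj
    have h3 := normSq_D_ge (N := N) (u := u) (j := j) (J := J) hj.2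
    have h4 : 2 * ‖S A N j‖ ^ (2 * m + 2) * ((u : ℝ) ^ 2 * (1 - δ)) ≤
        2 * ‖S A N j‖ ^ (2 * m + 2) * ‖S (range u) N j‖ ^ 2 :=
      mul_le_mul_of_nonneg_left h3 (by positivity)
    linarith
  by_cases hδ1 : δ ≤ 1
  · have h3 := cert_ineq hq hA hA0 (N := N) (by omega)
    rw [← sum_mul] at h2
    have h4 : gain m J q τ * (A.card : ℝ) ^ (2 * m + 2) * ((u : ℝ) ^ 2 * (1 - δ)) ≤
        (∑ j ∈ Icc 1 J, 2 * ‖S A N j‖ ^ (2 * m + 2)) * ((u : ℝ) ^ 2 * (1 - δ)) := by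
      have : 0 ≤ (u : ℝ) ^ 2 * (1 - δ) := mul_nonneg (sq_nonneg _) (by linarith)
      gcongr
    nlinarith
  · have h3 : 0 ≤ ∑ j ∈ Icc 1 J, 2 * (‖S A N j‖ ^ (2 * m + 2) * ‖S (range u) N j‖ ^ 2) :=
      sum_nonneg fun j _ => by positivity
    have h4 : (1 - δ) * gain m J q τ ≤ 0 := mul_nonpos_of_nonpos_of_nonneg (by linarith) hg
    have h5 : 0 ≤ (A.card : ℝ) ^ (2 * m + 2) * (u : ℝ) ^ 2 := by positivity
    nlinarith

end Pool.Agent.BhU16
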