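import Pool.Agent.BhU16.Asym

/-!
# The certificate `q_j = cos (π j / M)`, `1 ≤ j < M / 2`, and the sum of its powers
-/

namespace Pool.Agent.BhU16

open Finset Complex

/-- `Σ_{j < M} cos(π j / M)^{2M} = M (C(2M, M) + 2) / 4^M`. -/
theorem cos_sum {M : ℕ} (hM : 1 ≤ M) :
    ∑ j ∈ range M, Real.cos (Real.pi * j / M) ^ (2 * M) =
      M * ((2 * M).choose M + 2) / 4 ^ M := by
  have hM0 : (M : ℂ) ≠ 0 := by
    have : M ≠ 0 := by omega
    exact_mod_cast this
  set ζ : ℂ := exp (2 * Real.pi * I / M) with hζ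
  have hprim : IsPrimitiveRoot ζ M := Complex.isPrimitiveRoot_exp M (by omega)
  have hcos : ∀ j : ℕ, (Real.cos (Real.pi * j / M) : ℂ) ^ (2 * M) =
      1 / 4 ^ M * ∑ k ∈ range (2 * M + 1), ((2 * M).choose k : ℂ) * (ζ ^ k) ^ j := by
    intro j
    set x : ℂ := exp (Real.pi * j / M * I) with hx
    set y : ℂ := exp (-(Real.pi * j / M * I)) with hy
    have hxy : x * y = 1 := by rw [hx, hy, ← exp_add]; simp
    have h1 : (Real.cos (Real.pi * j / M) : ℂ) = (x + y) / 2 := by
      rw [ofReal_cos, Complex.cos, hx, hy]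
      push_cast
      congr 2
      congr 1
      ring
    have hyM : y ^ (2 * M) = 1 := by
      rw [hy, ← Complex.exp_nat_mul]
      rw [Complex.exp_eq_one_iff]
      refine ⟨-(j : ℤ), ?_⟩
      push_cast
      field_simp
    have hxx : x ^ 2 = ζ ^ j := by
      rw [hx, hζ, ← Complex.exp_nat_mul, ← Complex.exp_nat_mul]
      congr 1
      push_cast
      ring
    rw [h1, div_pow, add_pow, show (2 : ℂ) ^ (2 * M) = 4 ^ M by rw [pow_mul]; norm_num,
      div_eq_mul_one_div, mul_comm]
    congr 1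
    refine sum_congr rfl fun k hk => ?_
    rw [mem_range] at hk
    have h2 : x ^ k * y ^ (2 * M - k) = (ζ ^ k) ^ j := by
      have h3 : x ^ k * y ^ (2 * M - k) * y ^ k = (ζ ^ k) ^ j * y ^ k := by
        rw [mul_assoc, ← pow_add, show 2 * M - k + k = 2 * M by omega, hyM, mul_one,
          ← pow_mul, mul_comm k j, pow_mul, ← hxx, ← pow_mul]
        rw [two_mul, pow_add, mul_assoc, ← mul_pow, hxy, one_pow, mul_one]
      have h4 : y ^ k ≠ 0 := pow_ne_zero _ (exp_ne_zero _)
      exact mul_right_cancel₀ h4 h3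
    rw [h2]
    ring
  have hsum : ∀ k : ℕ, ∑ j ∈ range M, (ζ ^ k) ^ j = if M ∣ k then (M : ℂ) else 0 := by
    intro k
    split_ifs with h
    · have : ζ ^ k = 1 := (hprim.pow_eq_one_iff_dvd k).2 h
      simp [this]
    · have h1 : ζ ^ k ≠ 1 := fun h2 => h ((hprim.pow_eq_one_iff_dvd k).1 h2)
      rw [geom_sum_eq h1, ← pow_mul, mul_comm k M, pow_mul, hprim.pow_eq_one, one_pow, sub_self,
        zero_div]
  have hC : ((∑ j ∈ range M, Real.cos (Real.pi * j / M) ^ (2 * M) : ℝ) : ℂ) =
      ((M * ((2 * M).choose M + 2) / 4 ^ M : ℝ) : ℂ) := by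
    push_cast
    have h0 : ∀ j ∈ range M, Complex.cos (Real.pi * j / M) ^ (2 * M) =
        1 / 4 ^ M * ∑ k ∈ range (2 * M + 1), ((2 * M).choose k : ℂ) * (ζ ^ k) ^ j := by
      intro j _
      rw [← hcos j]
      push_cast
      rfl
    rw [sum_congr rfl h0, ← mul_sum, sum_comm]
    have h1 : ∀ k ∈ range (2 * M + 1), ∑ j ∈ range M, ((2 * M).choose k : ℂ) * (ζ ^ k) ^ j =
        if k ∈ ({0, M, 2 * M} : Finset ℕ) then ((2 * M).choose k : ℂ) * M else 0 := by
      intro k hk
      rw [mem_range] at hk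
      rw [← mul_sum, hsum k]
      have h2 : M ∣ k ↔ k ∈ ({0, M, 2 * M} : Finset ℕ) := by
        simp only [mem_insert, mem_singleton]
        constructor
        · rintro ⟨c, rfl⟩
          have hc : c ≤ 2 := by
            by_contra hcon
            have : M * 3 ≤ M * c := Nat.mul_le_mul_left _ (by omega)
            omega
          interval_cases c
          · left; simp
          · right; left; simp
          · right; right; ring
        · rintro (h | h | h)
          · rw [h]; exact dvd_zero _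
          · rw [h]
          · rw [h]; exact Dvd.intro_left 2 rfl
      by_cases h3 : M ∣ k
      · rw [if_pos h3, if_pos (h2.1 h3)]
      · rw [if_neg h3, if_neg (fun h4 => h3 (h2.2 h4)), mul_zero]
    rw [sum_congr rfl h1, sum_ite_mem]
    have h2 : range (2 * M + 1) ∩ {0, M, 2 * M} = {0, M, 2 * M} := by
      apply inter_eq_right.2
      intro k hk
      simp only [mem_insert, mem_singleton] at hk
      rw [mem_range]
      omega
    rw [h2, sum_insert, sum_insert, sum_singleton]
    · simp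
      ring
    · simp only [mem_singleton]
      omega
    · simp only [mem_insert, mem_singleton]
      omega
  exact_mod_cast hC

/-- The sum over `1 ≤ j < M / 2`. -/
theorem cos_half {M : ℕ} (hM : 1 ≤ M) :
    1 + 2 * ∑ j ∈ Icc 1 ((M - 1) / 2), Real.cos (Real.pi * j / M) ^ (2 * M) =
      M * ((2 * M).choose M + 2) / 4 ^ M := by
  rw [← cos_sum hM]
  set f : ℕ → ℝ := fun j => Real.cos (Real.pi * j / M) ^ (2 * M) with hf
  have hMr : (0 : ℝ) < M := by exact_mod_cast hM
  have hrefl : ∀ j, j ≤ M → f (M - j) = f j := by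
    intro j hj
    rw [hf]
    simp only
    rw [Nat.cast_sub hj]
    have : Real.pi * ((M : ℝ) - j) / M = Real.pi - Real.pi * j / M := by field_simp
    rw [this, Real.cos_pi_sub, Even.neg_pow ⟨M, by ring⟩]
  have hf0 : f 0 = 1 := by simp [hf]
  change 1 + 2 * ∑ j ∈ Icc 1 ((M - 1) / 2), f j = ∑ j ∈ range M, f j
  have hr : range M = insert 0 (Icc 1 (M - 1)) := by
    ext j
    simp only [mem_range, mem_insert, mem_Icc]
    omega
  rw [hr, sum_insert (by simp), hf0]
  congr 1
  set J := (M - 1) / 2 with hJ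
  have hsplit : Icc 1 (M - 1) = Icc 1 J ∪ Icc (J + 1) (M - 1) := by
    ext j
    simp only [mem_union, mem_Icc]
    omega
  have hdisj : Disjoint (Icc 1 J) (Icc (J + 1) (M - 1)) := by
    rw [disjoint_left]
    intro j hj hj'
    rw [mem_Icc] at hj hj'
    omega
  rw [hsplit, sum_union hdisj, two_mul]
  congr 1
  have h1 : ∑ j ∈ Icc (J + 1) (M - 1), f j = ∑ j ∈ Icc 1 (M - 1 - J), f j := by
    apply sum_nbij' (fun j => M - j) (fun j => M - j)
    · intro j hj; rw [mem_Icc] at hj ⊢; omega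
    · intro j hj; rw [mem_Icc] at hj ⊢; omega
    · intro j hj; rw [mem_Icc] at hj; omega
    · intro j hj; rw [mem_Icc] at hj; omega
    · intro j hj; rw [mem_Icc] at hj; exact (hrefl j (by omega)).symm
  rw [h1]
  rcases Nat.even_or_odd M with ⟨c, hc⟩ | ⟨c, hc⟩
  · have h2 : M - 1 - J = J + 1 := by omega
    have h3 : f (J + 1) = 0 := by
      rw [hf]
      simp only
      have h4 : ((J + 1 : ℕ) : ℝ) = M / 2 := by
        have : (J + 1) * 2 = M := by omega
        rw [← this]
        push_cast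
        ring
      rw [h4]
      have h5 : Real.pi * ((M : ℝ) / 2) / M = Real.pi / 2 := by field_simp
      rw [h5, Real.cos_pi_div_two, zero_pow (by omega)]
    rw [h2, sum_Icc_succ_top (by omega), h3, add_zero]
  · have h2 : M - 1 - J = J := by omega
    rw [h2]

/-- The certificate. -/
noncomputable def qc (m : ℕ) (j : ℕ) : ℝ := Real.cos (Real.pi * j / (m + 1 : ℕ))

theorem cert_cos (m : ℕ) : Cert m (m / 2) (qc m)
    (4 * (m + 1) * ∑ j ∈ Icc 1 (m / 2), qc m j ^ (2 * m + 2)) := by
  intro θ hθ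
  rw [mul_sum]
  refine sum_le_sum fun j hj => ?_
  rw [mem_Icc] at hj
  have hm : (0 : ℝ) < (m : ℝ) + 1 := by positivity
  have hpi := Real.pi_pos
  have hj2 : 2 * (j : ℝ) ≤ m := by
    have : 2 * j ≤ m := by omega
    exact_mod_cast this
  have h0 : 0 ≤ qc m j := by
    rw [qc]
    apply Real.cos_nonneg_of_neg_pi_div_two_le_of_le
    · have : 0 ≤ Real.pi * j / (m + 1 : ℕ) := by positivity
      linarith
    · push_cast
      rw [div_le_div_iff₀ hm (by norm_num)]
      nlinarith
  have h1 : qc m j ≤ Real.cos (j * θ) := by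
    rw [qc, ← Real.cos_abs (j * θ), abs_mul, abs_of_nonneg (Nat.cast_nonneg j)]
    apply Real.cos_le_cos_of_nonneg_of_le_pi (by positivity)
    · push_cast
      rw [div_le_iff₀ hm]
      nlinarith
    · calc (j : ℝ) * |θ| ≤ j * (Real.pi / (m + 1)) := by gcongr
        _ = Real.pi * j / (m + 1 : ℕ) := by push_cast; ring
  have h2 : qc m j ^ (2 * m + 2) = qc m j ^ (2 * m + 1) * qc m j := by ring
  rw [h2]
  have h3 : 4 * ((m : ℝ) + 1) * (qc m j ^ (2 * m + 1) * qc m j) =
      4 * ((m : ℝ) + 1) * qc m j ^ (2 * m + 1) * qc m j := by ring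
  rw [h3]
  apply mul_le_mul_of_nonneg_left h1
  positivity

theorem gain_cos (m : ℕ) : 1 + gain m (m / 2) (qc m)
    (4 * (m + 1) * ∑ j ∈ Icc 1 (m / 2), qc m j ^ (2 * m + 2)) =
      (m + 1) * ((2 * (m + 1)).choose (m + 1) + 2) / 4 ^ (m + 1) := by
  have h := cos_half (M := m + 1) (by omega)
  rw [show (m + 1 - 1) / 2 = m / 2 by omega, show 2 * (m + 1) = 2 * m + 2 by ring] at h
  rw [gain]
  have h2 : ∑ j ∈ Icc 1 (m / 2), qc m j ^ (2 * m + 2) =
      ∑ j ∈ Icc 1 (m / 2), Real.cos (Real.pi * j / (m + 1 : ℕ)) ^ (2 * m + 2) := rfl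
  rw [h2, show 2 * (m + 1) = 2 * m + 2 by ring]
  push_cast at h ⊢
  rw [← h]
  ring

end Pool.Agent.BhU16
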