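import Pool.Agent.BhU16.Basic

/-!
# Counting the solutions of `Σ a + s = Σ b + t`
-/

namespace Pool.Agent.BhU16

open Finset

/-- The solutions of `Σ a + s = Σ b + t`. -/
def Q (m u : ℕ) (A : Finset ℕ) :
    Finset (((Fin (m + 1) → ℕ) × (Fin (m + 1) → ℕ)) × (ℕ × ℕ)) :=
  ((tup (m + 1) A ×ˢ tup (m + 1) A) ×ˢ (range u ×ˢ range u)).filter fun q =>
    ∑ i, q.1.1 i + q.2.1 = ∑ i, q.1.2 i + q.2.2

theorem mem_Q {m u : ℕ} {A : Finset ℕ}
    {q : ((Fin (m + 1) → ℕ) × (Fin (m + 1) → ℕ)) × (ℕ × ℕ)} :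
    q ∈ Q m u A ↔ ((q.1.1 ∈ tup (m + 1) A ∧ q.1.2 ∈ tup (m + 1) A) ∧ (q.2.1 < u ∧ q.2.2 < u)) ∧
      ∑ i, q.1.1 i + q.2.1 = ∑ i, q.1.2 i + q.2.2 := by
  simp [Q]

theorem card_Q_common (m u : ℕ) (A : Finset ℕ) :
    ((Q m u A).filter fun q => ¬ ∀ i j, q.1.1 i ≠ q.1.2 j).card ≤
      ((m + 1) ^ 2 * A.card ^ (2 * m + 1)) * u := by
  classical
  have h1 : ((Q m u A).filter fun q => ¬ ∀ i j, q.1.1 i ≠ q.1.2 j).card ≤
      (((tup (m + 1) A ×ˢ tup (m + 1) A).filter fun p => ¬ ∀ i j, p.1 i ≠ p.2 j) ×ˢ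
        range u).card := by
    refine card_le_card_of_injOn (fun q => (q.1, q.2.1)) ?_ ?_
    · intro q hq
      rw [mem_coe, mem_filter, mem_Q] at hq
      rw [mem_coe, mem_product, mem_filter, mem_product, mem_range]
      exact ⟨⟨hq.1.1.1, hq.2⟩, hq.1.1.2.1⟩
    · intro q hq q' hq' hqq
      rw [mem_coe, mem_filter, mem_Q] at hq hq'
      simp only [Prod.mk.injEq] at hqq
      obtain ⟨h1, h2⟩ := hqq
      refine Prod.ext h1 (Prod.ext h2 ?_)
      have h3 := hq.1.2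
      have h4 := hq'.1.2
      rw [h1, h2] at h3
      omega
  refine h1.trans ?_
  rw [card_product, card_range]
  refine Nat.mul_le_mul_right _ ((card_common m m A).trans (le_of_eq ?_))
  rw [two_mul, sq]

theorem card_Q_even {m u : ℕ} {A : Finset ℕ} (hA : IsBh (2 * m + 2) A) :
    (Q m u A).card ≤ (m + 1).factorial ^ 2 * u ^ 2 +
      ((m + 1) ^ 2 * A.card ^ (2 * m + 1)) * u := by
  classical
  rw [← card_filter_add_card_filter_not (fun q : ((Fin (m + 1) → ℕ) × (Fin (m + 1) → ℕ)) × (ℕ × ℕ) =>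
    ∀ i j, q.1.1 i ≠ q.1.2 j)]
  refine Nat.add_le_add ?_ (card_Q_common m u A)
  have h1 := card_le_mul_card_image_of_maps_to
    (s := (Q m u A).filter fun q => ∀ i j, q.1.1 i ≠ q.1.2 j)
    (f := fun q => q.2) (t := range u ×ˢ range u) ?_
    ((m + 1).factorial * (m + 1).factorial) ?_
  · refine h1.trans (le_of_eq ?_)
    rw [card_product, card_range, sq, sq]
  · intro q hq
    rw [mem_filter, mem_Q] at hq
    rw [mem_product, mem_range, mem_range]
    exact hq.1.1.2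
  · rintro ⟨s, t⟩ _
    refine le_trans ?_ (card_disjoint (l := m + 1) (m := m + 1) (h := 2 * m + 2) (by omega) hA s t)
    refine card_le_card_of_injOn (fun q => q.1) ?_ ?_
    · intro q hq
      rw [mem_coe, mem_filter, mem_filter, mem_Q] at hq
      rw [mem_coe, mem_filter, mem_product]
      obtain ⟨⟨⟨⟨h1, _⟩, h3⟩, h4⟩, h5⟩ := hq
      rw [h5] at h3
      exact ⟨h1, h4, h3⟩
    · intro q hq q' hq' hqq
      rw [mem_coe, mem_filter] at hq hq'
      exact Prod.ext hqq (hq.2.trans hq'.2.symm)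

theorem card_Q_odd {m u : ℕ} {A : Finset ℕ} (hA : IsBh (2 * m + 1) A) :
    (Q m u A).card ≤ ((m + 1).factorial * m.factorial * A.card) * u ^ 2 +
      ((m + 1) ^ 2 * A.card ^ (2 * m + 1)) * u := by
  classical
  rw [← card_filter_add_card_filter_not (fun q : ((Fin (m + 1) → ℕ) × (Fin (m + 1) → ℕ)) × (ℕ × ℕ) =>
    ∀ i j, q.1.1 i ≠ q.1.2 j)]
  refine Nat.add_le_add ?_ (card_Q_common m u A)
  have h1 := card_le_mul_card_image_of_maps_to
    (s := (Q m u A).filter fun q => ∀ i j, q.1.1 i ≠ q.1.2 j)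
    (f := fun q => (q.1.2 0, q.2)) (t := A ×ˢ (range u ×ˢ range u)) ?_
    ((m + 1).factorial * m.factorial) ?_
  · refine h1.trans (le_of_eq ?_)
    rw [card_product, card_product, card_range]
    ring
  · intro q hq
    rw [mem_filter, mem_Q] at hq
    rw [mem_product, mem_product, mem_range, mem_range]
    exact ⟨mem_tup.1 hq.1.1.1.2 0, hq.1.1.2⟩
  · rintro ⟨c, s, t⟩ _
    refine le_trans ?_ (card_disjoint (l := m + 1) (m := m) (h := 2 * m + 1) (by omega) hA s (c + t))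
    refine card_le_card_of_injOn (fun q => (q.1.1, Fin.tail q.1.2)) ?_ ?_
    · intro q hq
      rw [mem_coe, mem_filter, mem_filter, mem_Q] at hq
      rw [mem_coe, mem_filter, mem_product]
      obtain ⟨⟨⟨⟨h1, _⟩, h3⟩, h4⟩, h5⟩ := hq
      simp only [Prod.mk.injEq] at h5
      obtain ⟨h5, h6⟩ := h5
      rw [h6, Fin.sum_univ_succ (fun i => q.1.2 i), h5] at h3
      refine ⟨⟨h1.1, mem_tup.2 fun k => mem_tup.1 h1.2 _⟩, fun i j => h4 i _, ?_⟩
      show ∑ i, q.1.1 i + s = ∑ i, Fin.tail q.1.2 i + (c + t)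
      unfold Fin.tail
      simp only at h3
      omega
    · intro q hq q' hq' hqq
      rw [mem_coe, mem_filter] at hq hq'
      simp only [Prod.mk.injEq] at hqq
      have h7 := hq.2.trans hq'.2.symm
      simp only [Prod.mk.injEq] at h7
      refine Prod.ext (Prod.ext hqq.1 ?_) h7.2
      rw [← Fin.cons_self_tail q.1.2, ← Fin.cons_self_tail q'.1.2, h7.1, hqq.2]

end Pool.Agent.BhU16
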