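import Pool.Agent.BhU16.Count

/-!
# Exponential sums
-/

namespace Pool.Agent.BhU16

open Finset Complex

/-- `exp (2 π i / N)`. -/
noncomputable def ze (N : ℕ) : ℂ := exp (2 * Real.pi * I / N)

theorem norm_ze (N : ℕ) : ‖ze N‖ = 1 := by
  have : (2 * Real.pi * I / N : ℂ) = ((2 * Real.pi / N : ℝ) : ℂ) * I := by
    push_cast; ring
  rw [ze, this, norm_exp_ofReal_mul_I]

theorem conj_ze (N : ℕ) : (starRingEnd ℂ) (ze N) = (ze N)⁻¹ := by
  rw [inv_def, normSq_eq_norm_sq, norm_ze]; simp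

theorem ze_ne_zero (N : ℕ) : ze N ≠ 0 := by
  rw [← norm_ne_zero_iff, norm_ze]; norm_num

theorem ze_pow_sub {N j : ℕ} (hN : 0 < N) (hj : j ≤ N) : ze N ^ (N - j) = (ze N ^ j)⁻¹ := by
  have h1 : ze N ^ N = 1 := (Complex.isPrimitiveRoot_exp N hN.ne').pow_eq_one
  have h2 : ze N ^ (N - j) * ze N ^ j = 1 := by
    rw [← pow_add, Nat.sub_add_cancel hj, h1]
  exact eq_inv_of_mul_eq_one_left h2

/-- Orthogonality: the mean square of an exponential sum counts the coincidences. -/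
theorem sum_normSq {ι : Type*} (V : Finset ι) (w : ι → ℕ) {N : ℕ} (hN : 0 < N)
    (hw : ∀ v ∈ V, w v < N) :
    ∑ j ∈ range N, ‖∑ v ∈ V, ze N ^ (j * w v)‖ ^ 2 =
      N * ((V ×ˢ V).filter fun p => w p.1 = w p.2).card := by
  classical
  have hprim : IsPrimitiveRoot (ze N) N := Complex.isPrimitiveRoot_exp N hN.ne'
  have h1 : ∀ j : ℕ, ((‖∑ v ∈ V, ze N ^ (j * w v)‖ ^ 2 : ℝ) : ℂ) =
      ∑ p ∈ V ×ˢ V, (ze N ^ (w p.1) * (ze N ^ (w p.2))⁻¹) ^ j := by
    intro j
    rw [← normSq_eq_norm_sq, ← mul_conj, map_sum, sum_mul_sum, sum_product]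
    refine sum_congr rfl fun a _ => sum_congr rfl fun b _ => ?_
    rw [map_pow, conj_ze, mul_pow, ← pow_mul, mul_comm (w a) j, inv_pow, inv_pow, ← pow_mul,
      mul_comm (w b) j]
  have h2 : ∀ p ∈ V ×ˢ V, ∑ j ∈ range N, (ze N ^ (w p.1) * (ze N ^ (w p.2))⁻¹) ^ j =
      if w p.1 = w p.2 then (N : ℂ) else 0 := by
    intro p hp
    rw [mem_product] at hp
    split_ifs with h
    · rw [h, mul_inv_cancel₀ (pow_ne_zero _ (ze_ne_zero N))]
      simp
    · set x : ℂ := ze N ^ (w p.1) * (ze N ^ (w p.2))⁻¹ with hx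
      have hx1 : x ≠ 1 := by
        intro h1
        have h2 : ze N ^ (w p.1) = ze N ^ (w p.2) := by
          rwa [hx, mul_inv_eq_one₀ (pow_ne_zero _ (ze_ne_zero N))] at h1
        exact h (hprim.pow_inj (hw _ hp.1) (hw _ hp.2) h2)
      have hxN : x ^ N = 1 := by
        rw [hx, mul_pow, inv_pow, ← pow_mul, ← pow_mul, mul_comm (w p.1), mul_comm (w p.2), pow_mul,
          pow_mul, hprim.pow_eq_one]
        simp
      rw [geom_sum_eq hx1, hxN, sub_self, zero_div]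
  have h3 : ((∑ j ∈ range N, ‖∑ v ∈ V, ze N ^ (j * w v)‖ ^ 2 : ℝ) : ℂ) =
      ((N * ((V ×ˢ V).filter fun p => w p.1 = w p.2).card : ℝ) : ℂ) := by
    rw [ofReal_sum, sum_congr rfl fun j _ => h1 j, sum_comm, sum_congr rfl h2, sum_ite]
    simp [mul_comm]
  exact_mod_cast h3

/-- The exponential sum over `A`. -/
noncomputable def S (A : Finset ℕ) (N j : ℕ) : ℂ := ∑ a ∈ A, ze N ^ (j * a)

theorem norm_S_le (A : Finset ℕ) (N j : ℕ) : ‖S A N j‖ ≤ A.card := by
  refine (norm_sum_le _ _).trans ?_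
  simp [norm_ze]

theorem norm_S_sub (A : Finset ℕ) {N j : ℕ} (hN : 0 < N) (hj : j ≤ N) :
    ‖S A N (N - j)‖ = ‖S A N j‖ := by
  have : S A N (N - j) = (starRingEnd ℂ) (S A N j) := by
    rw [S, S, map_sum]
    refine sum_congr rfl fun a _ => ?_
    rw [map_pow, conj_ze, pow_mul, ze_pow_sub hN hj, inv_pow, ← pow_mul, inv_pow]
  rw [this, norm_conj]

/-- The main inequality. -/
theorem sum_S {m u n : ℕ} {A : Finset ℕ} (hA : A ⊆ Icc 1 n) (hu : 0 < u) :
    ∑ j ∈ range ((m + 1) * n + u), (‖S A ((m + 1) * n + u) j‖ ^ (2 * m + 2) *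
      ‖S (range u) ((m + 1) * n + u) j‖ ^ 2) =
      ((m + 1) * n + u : ℕ) * (Q m u A).card := by
  classical
  set N := (m + 1) * n + u with hN
  have hN0 : 0 < N := by omega
  have h1 := sum_normSq (tup (m + 1) A ×ˢ range u) (fun v => ∑ i, v.1 i + v.2) hN0 (by
    intro v hv
    rw [mem_product, mem_range] at hv
    have h2 : ∑ i, v.1 i ≤ ∑ _i : Fin (m + 1), n :=
      sum_le_sum fun i _ => (mem_Icc.1 (hA (mem_tup.1 hv.1 i))).2
    rw [sum_const, card_univ, Fintype.card_fin, smul_eq_mul] at h2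
    omega)
  have h2 : ∀ j, ∑ v ∈ tup (m + 1) A ×ˢ range u, ze N ^ (j * (∑ i, v.1 i + v.2)) =
      S A N j ^ (m + 1) * S (range u) N j := by
    intro j
    rw [sum_product, S, S]
    have h3 : (∑ a ∈ A, ze N ^ (j * a)) ^ (m + 1) =
        ∑ a ∈ tup (m + 1) A, ze N ^ (j * ∑ i, a i) := by
      have h4 := Finset.prod_univ_sum (fun _ : Fin (m + 1) => A) (fun _ a => ze N ^ (j * a))
      rw [prod_const, card_univ, Fintype.card_fin] at h4
      rw [h4, tup]
      refine sum_congr rfl fun a _ => ?_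
      rw [prod_pow_eq_pow_sum, mul_sum]
    rw [h3, sum_mul_sum]
    refine sum_congr rfl fun a _ => sum_congr rfl fun s _ => ?_
    rw [mul_add, pow_add]
  have h3 : (((tup (m + 1) A ×ˢ range u) ×ˢ (tup (m + 1) A ×ˢ range u)).filter
      (fun p => ∑ i, p.1.1 i + p.1.2 = ∑ i, p.2.1 i + p.2.2)).card = (Q m u A).card := by
    refine card_bij' (fun p _ => ((p.1.1, p.2.1), (p.1.2, p.2.2)))
      (fun q _ => ((q.1.1, q.2.1), (q.1.2, q.2.2))) ?_ ?_ ?_ ?_
    · intro p hp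
      simp only [mem_filter, mem_product, mem_range] at hp
      rw [mem_Q]
      exact ⟨⟨⟨hp.1.1.1, hp.1.2.1⟩, hp.1.1.2, hp.1.2.2⟩, hp.2⟩
    · intro q hq
      rw [mem_Q] at hq
      simp only [mem_filter, mem_product, mem_range]
      exact ⟨⟨⟨hq.1.1.1, hq.1.2.1⟩, hq.1.1.2, hq.1.2.2⟩, hq.2⟩
    · intro p _; rfl
    · intro q _; rfl
  rw [h3] at h1
  rw [← h1]
  refine sum_congr rfl fun j _ => ?_
  rw [h2 j, norm_mul, norm_pow, mul_pow, ← pow_mul]
  congr 2
  ring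

/-- Lower bound of a sum over `range N` by the terms `0`, `j` and `N - j`, `1 ≤ j ≤ J`. -/
theorem sum_range_ge {N J : ℕ} (hJ : 2 * J < N) {f : ℕ → ℝ} (hf : ∀ j, 0 ≤ f j)
    (hs : ∀ j, j ≤ N → f (N - j) = f j) :
    f 0 + ∑ j ∈ Icc 1 J, 2 * f j ≤ ∑ j ∈ range N, f j := by
  classical
  have h1 : insert 0 (Icc 1 J ∪ (Icc 1 J).image fun j => N - j) ⊆ range N := by
    intro j hj
    rw [mem_insert, mem_union, mem_image] at hj
    rw [mem_range]
    rcases hj with rfl | hj | ⟨i, hi, rfl⟩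
    · omega
    · rw [mem_Icc] at hj; omega
    · rw [mem_Icc] at hi; omega
  refine le_trans (le_of_eq ?_) (sum_le_sum_of_subset_of_nonneg h1 fun j _ _ => hf j)
  rw [sum_insert, sum_union, sum_image]
  · congr 1
    rw [← sum_add_distrib]
    refine sum_congr rfl fun j hj => ?_
    rw [mem_Icc] at hj
    rw [hs j (by omega), two_mul]
  · intro i hi j hj hij
    rw [mem_coe, mem_Icc] at hi hj
    simp only at hij
    omega
  · rw [disjoint_left]
    intro j hj hj'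
    rw [mem_image] at hj'
    obtain ⟨i, hi, rfl⟩ := hj'
    rw [mem_Icc] at hi hj
    omega
  · intro h
    rw [mem_union, mem_image] at h
    rcases h with h | ⟨i, hi, h⟩
    · rw [mem_Icc] at h; omega
    · rw [mem_Icc] at hi; omega

end Pool.Agent.BhU16
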