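import Pool.Agent.BhU16.Tool

/-!
# The certificate for sums of `19` and of `20` elements
-/

namespace Pool.Agent.BhU16

/-- Numerators (denominator `10000`). -/
def l10 : List ℤ := [
    9586, 8383, 6504, 4127, 1475, -1204, -3661, -5669, -7049, -7680, -7519, -6596, -5017,
    -2951, -612, 1761, 3927, 5670, 6817, 7254, 6943, 5919, 4291, 2228, -54, -2319, -4329,
    -5872, -6781, -6949, -6346, -5015]

theorem check10 : check 9 10000 l10 188971180000000000000000000000000000000000000000000000000000000000000000000000 16384 15582
    [15983, 16183, 16384] 94152 100000 = true := by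
  decide +kernel

end Pool.Agent.BhU16
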