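import Pool.Agent.BhU16.Tool

/-!
# The certificate for sums of `5` and of `6` elements
-/

namespace Pool.Agent.BhU16

/-- Numerators (denominator `1000`). -/
def l3 : List ℤ := [
    692, 27, -456, -415, 13, 375, 334, -29, -334, -288, 40, 309, 256, -49, -290, -230, 58, 276,
    208, -66, -264, -189, 75, 254, 170, -85, -246, -152, 95, 238, 133, -107, -231, -113, 120,
    224, 91, -137, -217, -65, 156, 208, 32, -179, -187, 21, 190, 43]

theorem check3 : check 2 1000 l3 1608672000000000 4096 2048
    [2560, 3379, 3737, 4096] 26699 100000 = true := by
  decide +kernel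

end Pool.Agent.BhU16
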