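import Pool.Agent.BhU16.Tool

/-!
# The certificate for sums of `7` and of `8` elements
-/

namespace Pool.Agent.BhU16

/-- Numerators (denominator `1000`). -/
def l4 : List ℤ := [
    800, 303, -237, -553, -512, -177, 235, 481, 428, 124, -239, -444, -376, -86, 246, 419, 335,
    50, -257, -401, -297, -13, 272, 384, 255, -33, -295, -365, -195, 105, 330, 304]

theorem check4 : check 3 1000 l4 3039597000000000000000 4096 2896
    [3196, 3676, 4096] 37648 100000 = true := by
  decide +kernel

end Pool.Agent.BhU16
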