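import Pool.Agent.BhU16.Tool

/-!
# The certificate for sums of `9` and of `10` elements
-/

namespace Pool.Agent.BhU16

/-- Numerators (denominator `1000`). -/
def l5 : List ℤ := [
    860, 490, 18, -396, -617, -583, -325, 45, 380, 552, 502, 257, -81, -378, -518, -450, -206,
    115, 384, 495, 405, 154, -156, -398, -473, -351, -81, 221, 423, 428, 209, -170]

theorem check5 : check 4 1000 l5 4843822000000000000000000000 4096 3313
    [3704, 3900, 4096] 48084 100000 = true := by
  decide +kernel

end Pool.Agent.BhU16
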