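import Pool.Agent.BhU16.Tool

/-!
# The certificate for sums of `11` and of `12` elements
-/

namespace Pool.Agent.BhU16

/-- Numerators (denominator `1000`). -/
def l6 : List ℤ := [
    898, 616, 224, -181, -501, -663, -635, -434, -122, 213, 478, 604, 560, 362, 68, -239, -474,
    -573, -510, -305, -17, 272, 480, 549, 459, 237, -53, -326, -497, -511, -351, -50]

theorem check6 : check 5 1000 l6 7107286000000000000000000000000000 4096 3547
    [3821, 4096] 58505 100000 = true := by
  decide +kernel

end Pool.Agent.BhU16
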