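import Pool.Agent.BhU16.Tool

/-!
# The certificate for sums of `13` and of `14` elements
-/

namespace Pool.Agent.BhU16

/-- Numerators (denominator `10000`). -/
def l7 : List ℤ := [
    9214, 7003, 3779, 141, -3244, -5766, -6989, -6736, -5114, -2496, 564, 3433, 5534, 6455,
    6029, 4366, 1826, -1056, -3680, -5504, -6152, -5498, -3684, -1098, 1706, 4120, 5606, 5806,
    4616, 2213, -974, -4351]

theorem check7 : check 6 10000 l7 95596610000000000000000000000000000000000000000000000 4096 3690
    [3893, 3994, 4096] 67989 100000 = true := by
  decide +kernel

end Pool.Agent.BhU16
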