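import Pool.Agent.BhU16.Tool

/-!
# The certificate for sums of `15` and of `16` elements
-/

namespace Pool.Agent.BhU16

/-- Numerators (denominator `10000`). -/
def l8 : List ℤ := [
    9382, 7618, 4962, 1796, -1426, -4250, -6283, -7257, -7061, -5762, -3590, -901, 1877, 4309,
    6023, 6762, 6422, 5072, 2935, 357, -2251, -4474, -5962, -6481, -5953, -4466, -2261, 301,
    2803, 4828, 6030, 6186]

theorem check8 : check 7 10000 l8 12445375000000000000000000000000000000000000000000000000000000 4096 3784
    [3940, 4018, 4096] 77460 100000 = true := by
  decide +kernel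

end Pool.Agent.BhU16
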