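import Pool.Agent.BhU16.Tool

/-!
# The certificate for sums of `17` and of `18` elements
-/

namespace Pool.Agent.BhU16

/-- Numerators (denominator `10000`). -/
def l9 : List ℤ := [
    9497, 8046, 5815, 3063, 107, -2716, -5085, -6738, -7499, -7300, -6190, -4323, -1945, 640,
    3108, 5150, 6517, 7043, 6668, 5446, 3538, 1189, -1297, -3599, -5416, -6505, -6711, -5985,
    -4395, -2112, 602, 3433]

theorem check9 : check 8 10000 l9 1545397800000000000000000000000000000000000000000000000000000000000000 16384 15395
    [15889, 16136, 16384] 85545 100000 = true := by
  decide +kernel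

end Pool.Agent.BhU16
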