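import Pool.Agent.BhU16.T3
import Pool.Agent.BhU16.T4
import Pool.Agent.BhU16.T5
import Pool.Agent.BhU16.T6
import Pool.Agent.BhU16.T7
import Pool.Agent.BhU16.T8
import Pool.Agent.BhU16.T9
import Pool.Agent.BhU16.T10
import Pool.Agent.BhU16.CosSum

/-!
# From certificates to bounds
-/

namespace Pool.Agent.BhU16

open Filter

/-- Both bounds, for `h = 2 m + 1` and `h = 2 m + 2`, in one formula. -/
theorem upper {m J : ℕ} {q : ℕ → ℝ} {τ : ℝ} (hq : Cert m J q τ) (hg : 0 ≤ gain m J q τ)
    {h : ℕ} (hh : (h + 1) / 2 = m + 1) {ε : ℝ} (hε : 0 < ε) :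
    ∀ᶠ n : ℕ in atTop, (R h n : ℝ) ^ h ≤
      (((m + 1).factorial : ℝ) * (h / 2).factorial * (m + 1) / (1 + gain m J q τ) + ε) * n := by
  rcases Nat.even_or_odd h with ⟨c, hc⟩ | ⟨c, hc⟩
  · have hc' : h = 2 * m + 2 := by omega
    subst hc'
    have h1 := upper_even hq hg hε
    rw [show (2 * m + 2) / 2 = m + 1 by omega]
    rw [sq] at h1
    exact h1
  · have hc' : h = 2 * m + 1 := by omega
    subst hc'
    have h1 := upper_odd hq hg hε
    rw [show (2 * m + 1) / 2 = m by omega]
    have h2 : (((m + 1).factorial : ℝ) ^ 2) =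
        ((m + 1).factorial : ℝ) * m.factorial * (m + 1) := by
      rw [sq, mul_assoc]
      congr 1
      rw [Nat.factorial_succ]
      push_cast
      ring
    rw [h2] at h1
    exact h1

/-- A strict form: the gain is larger than the number in the table. -/
theorem upper_lt {m J : ℕ} {q : ℕ → ℝ} {τ g : ℝ} (hq : Cert m J q τ) (hg0 : 0 ≤ g)
    (hg : g < gain m J q τ) {h : ℕ} (hh : (h + 1) / 2 = m + 1) :
    ∀ᶠ n : ℕ in atTop, (R h n : ℝ) ^ h ≤
      ((m + 1).factorial : ℝ) * (h / 2).factorial * (m + 1) / (1 + g) * n := by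
  have hC : (0 : ℝ) < ((m + 1).factorial : ℝ) * (h / 2).factorial * (m + 1) := by positivity
  have h1 : ((m + 1).factorial : ℝ) * (h / 2).factorial * (m + 1) / (1 + gain m J q τ) <
      ((m + 1).factorial : ℝ) * (h / 2).factorial * (m + 1) / (1 + g) := by
    apply div_lt_div_of_pos_left hC (by linarith) (by linarith)
  have h2 := upper hq (hg0.trans hg.le) hh (sub_pos.2 h1)
  filter_upwards [h2] with n hn
  refine hn.trans (le_of_eq ?_)
  ring

/-- The factors of the table: for `k = ⌈h / 2⌉` between `3` and `10`. -/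
noncomputable def fac : ℕ → ℝ
  | 3 => 1.266
  | 4 => 1.376
  | 5 => 1.480
  | 6 => 1.585
  | 7 => 1.679
  | 8 => 1.774
  | 9 => 1.855
  | 10 => 1.941
  | _ => 1

theorem table {h : ℕ} (h5 : 5 ≤ h) (h20 : h ≤ 20) :
    ∀ᶠ n : ℕ in atTop, (R h n : ℝ) ^ h ≤
      (((h + 1) / 2).factorial : ℝ) * (h / 2).factorial * ((h + 1) / 2 : ℕ) / fac ((h + 1) / 2) *
        n := by
  obtain ⟨m, hm⟩ : ∃ m, (h + 1) / 2 = m + 1 := ⟨(h + 1) / 2 - 1, by omega⟩
  have hm1 : 2 ≤ m := by omega
  have hm2 : m ≤ 9 := by omega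
  rw [hm]
  push_cast
  have key : ∀ {D : ℕ} {l : List ℤ} {T N A : ℤ} {r : List ℤ} {g e : ℤ} {g' : ℝ},
      check m D l T N A r g e = true → 0 ≤ g' → g' < (g : ℝ) / e →
      ∀ᶠ n : ℕ in atTop, (R h n : ℝ) ^ h ≤
        ((m + 1).factorial : ℝ) * (h / 2).factorial * (m + 1) / (1 + g') * n := by
    intro D l T N A r g e g' hc hg0 hg
    obtain ⟨c1, c2⟩ := check_cert hc
    exact upper_lt c1 hg0 (hg.trans_le c2) hm
  interval_cases m
  · have := key check3 (g' := 0.266) (by norm_num) (by norm_num)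
    rw [fac]
    norm_num at this ⊢
    exact this
  · have := key check4 (g' := 0.376) (by norm_num) (by norm_num)
    rw [fac]
    norm_num at this ⊢
    exact this
  · have := key check5 (g' := 0.480) (by norm_num) (by norm_num)
    rw [fac]
    norm_num at this ⊢
    exact this
  · have := key check6 (g' := 0.585) (by norm_num) (by norm_num)
    rw [fac]
    norm_num at this ⊢
    exact this
  · have := key check7 (g' := 0.679) (by norm_num) (by norm_num)
    rw [fac]
    norm_num at this ⊢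
    exact this
  · have := key check8 (g' := 0.774) (by norm_num) (by norm_num)
    rw [fac]
    norm_num at this ⊢
    exact this
  · have := key check9 (g' := 0.855) (by norm_num) (by norm_num)
    rw [fac]
    norm_num at this ⊢
    exact this
  · have := key check10 (g' := 0.941) (by norm_num) (by norm_num)
    rw [fac]
    norm_num at this ⊢
    exact this

end Pool.Agent.BhU16
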