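import Pool.Agent.BhU16.Asym
import Pool.Agent.PB86.BernTool

/-!
# A kernel-checkable certificate
-/

namespace Pool.Agent.BhU16

open Finset
open Pool.Agent.PB86 (pev bern pev_pos)

/-- Difference of two coefficient lists. -/
def lsub : List ℤ → List ℤ → List ℤ
  | [], l => l.map (fun t => -t)
  | a :: l, [] => a :: l
  | a :: l, b :: m => (a - b) :: lsub l m

/-- Sum of two coefficient lists. -/
def ladd : List ℤ → List ℤ → List ℤ
  | [], l => l
  | a :: l, [] => a :: l
  | a :: l, b :: m => (a + b) :: ladd l m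

theorem pev_map (c : ℤ) (y : ℝ) : ∀ l : List ℤ, pev (l.map (fun t => c * t)) y = c * pev l y
  | [] => by simp [pev]
  | a :: l => by
    rw [List.map_cons, pev, pev_map c y l, pev]
    push_cast
    ring

theorem pev_neg (y : ℝ) : ∀ l : List ℤ, pev (l.map (fun t => -t)) y = -pev l y
  | [] => by simp [pev]
  | a :: l => by
    rw [List.map_cons, pev, pev_neg y l, pev]
    push_cast
    ring

theorem pev_lsub (y : ℝ) : ∀ l m : List ℤ, pev (lsub l m) y = pev l y - pev m y
  | [], l => by rw [lsub, pev_neg, pev]; ring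
  | a :: l, [] => by simp [lsub, pev]
  | a :: l, b :: m => by
    rw [lsub, pev, pev_lsub y l m, pev, pev]
    push_cast
    ring

theorem pev_ladd (y : ℝ) : ∀ l m : List ℤ, pev (ladd l m) y = pev l y + pev m y
  | [], l => by simp [ladd, pev]
  | a :: l, [] => by simp [ladd, pev]
  | a :: l, b :: m => by
    rw [ladd, pev, pev_ladd y l m, pev, pev]
    push_cast
    ring

/-- The Chebyshev recursion `2 x b - a`. -/
def next (a b : List ℤ) : List ℤ := lsub (0 :: b.map (fun t => 2 * t)) a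

theorem pev_next (y : ℝ) (a b : List ℤ) : pev (next a b) y = 2 * y * pev b y - pev a y := by
  rw [next, pev_lsub, pev, pev_map]
  push_cast
  ring

/-- `Σ_j c(q_j) T_j` for the list `q`, where `a = T_{j-1}`, `b = T_j` at the start. -/
def comb (c : ℤ → ℤ) : List ℤ → List ℤ → List ℤ → List ℤ
  | [], _, _ => []
  | q :: l, a, b => ladd (b.map (fun t => c q * t)) (comb c l b (next a b))

/-- the same sum with cosines -/
noncomputable def cs (c : ℤ → ℝ) (θ : ℝ) : List ℤ → ℕ → ℝ
  | [], _ => 0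
  | q :: l, j => c q * Real.cos (j * θ) + cs c θ l (j + 1)

theorem pev_comb (c : ℤ → ℤ) (θ : ℝ) : ∀ (l a b : List ℤ) (j : ℕ),
    pev a (Real.cos θ) = Real.cos (j * θ) → pev b (Real.cos θ) = Real.cos ((j + 1 : ℕ) * θ) →
    pev (comb c l a b) (Real.cos θ) = cs (fun t => (c t : ℝ)) θ l (j + 1)
  | [], _, _, _, _, _ => by simp [comb, cs, pev]
  | q :: l, a, b, j, ha, hb => by
    rw [comb, pev_ladd, pev_map, cs, hb, pev_comb c θ l b (next a b) (j + 1) hb]
    rw [pev_next, ha, hb]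
    have h1 : Real.cos ((j + 1 + 1 : ℕ) * θ) = Real.cos ((j + 1 : ℕ) * θ + θ) := by
      congr 1; push_cast; ring
    have h2 : Real.cos (j * θ) = Real.cos ((j + 1 : ℕ) * θ - θ) := by
      congr 1; push_cast; ring
    rw [h1, h2, Real.cos_add, Real.cos_sub]
    ring

/-- The sequence given by a list of numerators and a denominator, indexed from `1`. -/
noncomputable def qf (D : ℕ) (l : List ℤ) (j : ℕ) : ℝ := ((l.getD (j - 1) 0 : ℤ) : ℝ) / D

theorem sum_list (c : ℤ → ℝ) (θ : ℝ) (l : List ℤ) : ∀ j : ℕ,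
    ∑ i ∈ range l.length, c (l.getD i 0) * Real.cos ((j + i : ℕ) * θ) = cs c θ l j := by
  induction l with
  | nil => intro j; simp [cs]
  | cons q l ih =>
    intro j
    rw [List.length_cons, sum_range_succ']
    have h := ih (j + 1)
    have h2 : ∀ i, c ((q :: l).getD (i + 1) 0) * Real.cos ((j + (i + 1) : ℕ) * θ) =
        c (l.getD i 0) * Real.cos ((j + 1 + i : ℕ) * θ) := by
      intro i
      rw [List.getD_cons_succ, show j + (i + 1) = j + 1 + i by ring]
    rw [sum_congr rfl fun i _ => h2 i, h, List.getD_cons_zero, add_zero, cs]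
    ring

theorem sum_pow (p : ℕ) (l : List ℤ) :
    ∑ i ∈ range l.length, ((l.getD i 0 : ℤ) : ℝ) ^ p = ((l.map (fun t => t ^ p)).sum : ℤ) := by
  induction l with
  | nil => simp
  | cons q l ih =>
    rw [List.length_cons, sum_range_succ', List.map_cons, List.sum_cons]
    have h2 : ∀ i, (((q :: l).getD (i + 1) 0 : ℤ) : ℝ) ^ p = ((l.getD i 0 : ℤ) : ℝ) ^ p := by
      intro i
      rw [List.getD_cons_succ]
    rw [sum_congr rfl fun i _ => h2 i, ih, List.getD_cons_zero]
    push_cast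
    ring

theorem sum_Icc_one (f : ℕ → ℝ) (n : ℕ) : ∑ j ∈ Icc 1 n, f j = ∑ i ∈ range n, f (1 + i) := by
  apply sum_nbij' (fun j => j - 1) (fun i => 1 + i)
  · intro j hj; rw [mem_Icc] at hj; rw [mem_range]; omega
  · intro j hj; rw [mem_range] at hj; rw [mem_Icc]; omega
  · intro j hj; rw [mem_Icc] at hj; omega
  · intro j hj; omega
  · intro j hj
    rw [mem_Icc] at hj
    rw [show 1 + (j - 1) = j by omega]

/-- positivity on consecutive intervals -/
def ivs (N : ℤ) (l : List ℤ) : ℤ → List ℤ → Bool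
  | _, [] => true
  | A, B :: r => decide (A < B) && (bern A B N l).all (fun t => decide (0 < t)) && ivs N l B r

theorem ivs_pos {N : ℤ} (hN : 0 < N) {l : List ℤ} (hl : l ≠ []) : ∀ (r : List ℤ) (A : ℤ),
    ivs N l A r = true → ∀ y : ℝ, (A : ℝ) ≤ N * y → (N : ℝ) * y ≤ ((r.getLastD A : ℤ) : ℝ) →
    r ≠ [] → 0 < pev l y
  | [], _, _, _, _, _, hr => absurd rfl hr
  | B :: r, A, h, y, h1, h2, _ => by
    rw [ivs, Bool.and_eq_true, Bool.and_eq_true, decide_eq_true_eq] at h
    rcases le_total ((N : ℝ) * y) B with h3 | h3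
    · exact pev_pos A B N hN h.1.1 l hl h.1.2 h1 h3
    · rcases r with _ | ⟨C, r⟩
      · have h4 : (N : ℝ) * y = B := le_antisymm (by simpa using h2) h3
        exact pev_pos A B N hN h.1.1 l hl h.1.2 h1 h4.le
      · exact ivs_pos hN hl (C :: r) B h.2 y h3 h2 (by simp)

/-- numerators of `sin (k φ) / sin φ` for `cos φ = A / N` -/
def sU (A N : ℤ) : ℕ → ℤ × ℤ
  | 0 => (0, 1)
  | k + 1 => ((sU A N k).2, 2 * A * (sU A N k).2 - N ^ 2 * (sU A N k).1)

theorem sU_sin {A N : ℤ} (hN : 0 < N) {φ : ℝ} (hφ : Real.cos φ = A / N) : ∀ k : ℕ,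
    Real.sin (k * φ) * N ^ k = (sU A N k).1 * N * Real.sin φ ∧
    Real.sin ((k + 1 : ℕ) * φ) * N ^ k = (sU A N k).2 * Real.sin φ := by
  have hN0 : (N : ℝ) ≠ 0 := by
    have : (0 : ℝ) < N := by exact_mod_cast hN
    exact this.ne'
  have hc : Real.cos φ * N = A := by rw [hφ]; field_simp
  intro k
  induction k with
  | zero => simp [sU]
  | succ k ih =>
    refine ⟨?_, ?_⟩
    · rw [sU, pow_succ, ← mul_assoc, ih.2]
      ring
    · rw [sU]
      have h1 : Real.sin ((k + 1 + 1 : ℕ) * φ) = Real.sin ((k + 1 : ℕ) * φ + φ) := by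
        congr 1; push_cast; ring
      have h2 : Real.sin (k * φ) = Real.sin ((k + 1 : ℕ) * φ - φ) := by
        congr 1; push_cast; ring
      have h3 : Real.sin ((k + 1 + 1 : ℕ) * φ) =
          2 * Real.cos φ * Real.sin ((k + 1 : ℕ) * φ) - Real.sin (k * φ) := by
        rw [h1, h2, Real.sin_add, Real.sin_sub]
        ring
      rw [h3]
      push_cast
      have e1 := ih.1
      have e2 := ih.2
      push_cast at e2
      have : (2 * Real.cos φ * Real.sin (((k : ℝ) + 1) * φ) - Real.sin (k * φ)) * (N : ℝ) ^ (k + 1) =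
          2 * (Real.cos φ * N) * (Real.sin (((k : ℝ) + 1) * φ) * N ^ k) -
          N * (Real.sin (k * φ) * N ^ k) := by ring
      rw [this, e1, e2, hc]
      ring

/-- If the test is passed then `A / N ≤ cos (π / M)`. -/
theorem cos_ge {A N : ℤ} (hN : 0 < N) {M : ℕ} (hM : 1 ≤ M) (hAN : A < N) (hAN' : -N < A)
    (h : (sU A N M).1 ≤ 0) : (A : ℝ) / N ≤ Real.cos (Real.pi / M) := by
  have hNR : (0 : ℝ) < N := by exact_mod_cast hN
  have hA1 : (A : ℝ) < N := by exact_mod_cast hAN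
  have hA2 : -(N : ℝ) < A := by exact_mod_cast hAN'
  have hr1 : (A : ℝ) / N < 1 := by rw [div_lt_one hNR]; exact hA1
  have hr2 : -1 < (A : ℝ) / N := by rw [lt_div_iff₀ hNR]; linarith
  set φ := Real.arccos ((A : ℝ) / N) with hφ
  have hcos : Real.cos φ = (A : ℝ) / N := Real.cos_arccos hr2.le hr1.le
  have hφ0 : 0 < φ := Real.arccos_pos.2 hr1
  have hφ1 : φ < Real.pi := by
    rw [hφ, ← Real.arccos_neg_one]
    exact Real.arccos_lt_arccos (by norm_num) hr2 (by linarith)
  have hs : 0 < Real.sin φ := Real.sin_pos_of_pos_of_lt_pi hφ0 hφ1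
  rw [← hcos]
  have hMR : (0 : ℝ) < M := by exact_mod_cast hM
  have hle : Real.pi / M ≤ φ := by
    by_contra hcon
    push Not at hcon
    rw [lt_div_iff₀ hMR] at hcon
    have h1 : 0 < Real.sin (M * φ) :=
      Real.sin_pos_of_pos_of_lt_pi (by positivity) (by linarith)
    have h2 := (sU_sin hN hcos M).1
    have h3 : 0 < Real.sin (M * φ) * (N : ℝ) ^ M := by positivity
    rw [h2] at h3
    have h4 : ((sU A N M).1 : ℝ) ≤ 0 := by exact_mod_cast h
    have h5 : ((sU A N M).1 : ℝ) * N * Real.sin φ ≤ 0 := by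
      have : ((sU A N M).1 : ℝ) * N * Real.sin φ = -(-((sU A N M).1 : ℝ) * (N * Real.sin φ)) := by
        ring
      rw [this]
      have h6 : 0 ≤ -((sU A N M).1 : ℝ) * (N * Real.sin φ) := by
        apply mul_nonneg (by linarith) (by positivity)
      linarith
    linarith
  exact Real.cos_le_cos_of_nonneg_of_le_pi (by positivity) hφ1.le hle

/-- The polynomial of the certificate (times `D ^ (2 m + 1)`) minus `T`. -/
def cpol (m : ℕ) (l : List ℤ) (T : ℤ) : List ℤ :=
  ladd [-T] (comb (fun q => 4 * ((m : ℤ) + 1) * q ^ (2 * m + 1)) l [1] [0, 1])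

/-- The check. -/
def check (m : ℕ) (D : ℕ) (l : List ℤ) (T : ℤ) (N A : ℤ) (r : List ℤ) (g e : ℤ) : Bool :=
  decide (0 < D) && decide (0 < N) && decide (A < N) && decide (-N < A) &&
    decide ((sU A N (m + 1)).1 ≤ 0) && decide (N ≤ r.getLastD A) && decide (r ≠ []) &&
    decide (0 < e) &&
    decide (g * D ^ (2 * m + 2) ≤
      e * (T * D - 2 * (2 * m + 1) * (l.map (fun t => t ^ (2 * m + 2))).sum)) &&
    ivs N (cpol m l T) A r

theorem ladd_cons_ne (a : ℤ) : ∀ l : List ℤ, ladd [a] l ≠ []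
  | [] => by simp [ladd]
  | b :: m => by simp [ladd]

theorem check_cert {m D : ℕ} {l : List ℤ} {T N A : ℤ} {r : List ℤ} {g e : ℤ}
    (h : check m D l T N A r g e = true) :
    Cert m l.length (qf D l) (T / D ^ (2 * m + 1)) ∧
      (g : ℝ) / e ≤ gain m l.length (qf D l) (T / D ^ (2 * m + 1)) := by
  simp only [check, Bool.and_eq_true, decide_eq_true_eq] at h
  obtain ⟨⟨⟨⟨⟨⟨⟨⟨⟨hD, hN⟩, hAN⟩, hAN'⟩, hs⟩, hlast⟩, hr⟩, he⟩, hg⟩, hiv⟩ := h
  have hDR : (0 : ℝ) < D := by exact_mod_cast hD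
  have hNR : (0 : ℝ) < N := by exact_mod_cast hN
  have heR : (0 : ℝ) < e := by exact_mod_cast he
  constructor
  · intro θ hθ
    have h1 : (A : ℝ) / N ≤ Real.cos θ := by
      refine (cos_ge hN (M := m + 1) (by omega) hAN hAN' hs).trans ?_
      rw [← Real.cos_abs θ]
      refine Real.cos_le_cos_of_nonneg_of_le_pi (abs_nonneg _) ?_ ?_
      · have : (1 : ℝ) ≤ (m + 1 : ℕ) := by push_cast; linarith [Nat.cast_nonneg (α := ℝ) m]
        exact div_le_self Real.pi_pos.le this
      · push_cast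
        exact hθ
    have h2 : (N : ℝ) * Real.cos θ ≤ ((r.getLastD A : ℤ) : ℝ) := by
      have h3 : (N : ℝ) ≤ ((r.getLastD A : ℤ) : ℝ) := by exact_mod_cast hlast
      nlinarith [Real.cos_le_one θ]
    have h3 : (A : ℝ) ≤ N * Real.cos θ := by
      rw [div_le_iff₀ hNR] at h1
      linarith
    have h4 := ivs_pos hN (ladd_cons_ne _ _) r A hiv _ h3 h2 hr
    rw [pev_ladd] at h4
    have h5 := pev_comb (fun q => 4 * ((m : ℤ) + 1) * q ^ (2 * m + 1)) θ l [1] [0, 1] 0
      (by simp [pev]) (by simp [pev])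
    rw [h5, ← sum_list] at h4
    have h6 : pev [-T] (Real.cos θ) = -T := by simp [pev]
    rw [h6] at h4
    rw [div_le_iff₀ (by positivity), sum_mul, sum_Icc_one]
    have h7 : ∀ i ∈ range l.length, 4 * ((m : ℝ) + 1) * qf D l (1 + i) ^ (2 * m + 1) *
        Real.cos ((1 + i : ℕ) * θ) * D ^ (2 * m + 1) =
        ((4 * ((m : ℤ) + 1) * (l.getD i 0) ^ (2 * m + 1) : ℤ) : ℝ) *
          Real.cos ((0 + 1 + i : ℕ) * θ) := by
      intro i _
      rw [qf, show 1 + i - 1 = i by omega, zero_add, div_pow]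
      push_cast
      field_simp
    rw [sum_congr rfl h7]
    linarith
  · rw [gain, div_le_iff₀ heR]
    have h1 : ∑ j ∈ Icc 1 l.length, qf D l j ^ (2 * m + 2) =
        ((l.map (fun t => t ^ (2 * m + 2))).sum : ℤ) / D ^ (2 * m + 2) := by
      rw [sum_Icc_one, ← sum_pow, sum_div]
      refine sum_congr rfl fun i _ => ?_
      rw [qf, show 1 + i - 1 = i by omega, div_pow]
    rw [h1]
    have h2 : (g : ℝ) * D ^ (2 * m + 2) ≤
      e * (T * D - 2 * (2 * m + 1) * ((l.map (fun t => t ^ (2 * m + 2))).sum : ℤ)) := by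
      exact_mod_cast hg
    have h3 : (T / D ^ (2 * m + 1) - 2 * (2 * (m : ℝ) + 1) *
        (((l.map (fun t => t ^ (2 * m + 2))).sum : ℤ) / D ^ (2 * m + 2))) * e =
        e * (T * D - 2 * (2 * m + 1) * ((l.map (fun t => t ^ (2 * m + 2))).sum : ℤ)) /
          D ^ (2 * m + 2) := by
      field_simp
      ring
    rw [h3, le_div_iff₀ (by positivity)]
    exact h2

end Pool.Agent.BhU16
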